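import Pool.Agent.Lib.MP_0b6b0e_gt.ZB.Defs

/-! Elementary facts on gauge functions, shared by the modules. -/

set_option autoImplicit false
set_option linter.unusedSectionVars false

open Set Filter Topology MeasureTheory

open scoped InnerProductSpace

namespace Pool.Agent.Lib.MP_0b6b0e_gt.ZB

section

variable {E : Type*} [NormedAddCommGroup E] [InnerProductSpace ℝ E] {P : E → ℝ}

theorem IsG.zero (h : IsG P) : P 0 = 0 := by
  have := h.smul 0 le_rfl 0
  simpa using this

theorem IsG.pos (h : IsG P) {x : E} (hx : x ≠ 0) : 0 < P x := by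
  obtain ⟨c, hc, hl⟩ := h.lower
  exact lt_of_lt_of_le (mul_pos hc (norm_pos_iff.2 hx)) (hl x)

theorem IsG.nonneg (h : IsG P) (x : E) : 0 ≤ P x := by
  obtain ⟨c, hc, hl⟩ := h.lower
  exact (mul_nonneg hc.le (norm_nonneg x)).trans (hl x)

theorem IsG.sub_le (h : IsG P) (x y : E) : P x - P y ≤ P (x - y) := by
  have := h.add (x - y) y
  rw [sub_add_cancel] at this
  linarith

theorem IsG.exists_lipschitz (h : IsG P) :
    ∃ C : ℝ, 0 < C ∧ (∀ x, P x ≤ C * ‖x‖) ∧ ∀ x y, |P x - P y| ≤ C * ‖x - y‖ := by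
  obtain ⟨C, hC, hu⟩ := h.upper
  refine ⟨C, hC, hu, fun x y => ?_⟩
  rw [abs_le]
  constructor
  · have h1 := h.sub_le y x
    have h2 := hu (y - x)
    rw [norm_sub_rev] at h2
    linarith
  · exact (h.sub_le x y).trans (hu _)

theorem IsG.continuous (h : IsG P) : Continuous P := by
  obtain ⟨C, hC, -, hl⟩ := h.exists_lipschitz
  have : LipschitzWith (Real.toNNReal C) P := by
    apply LipschitzWith.of_dist_le_mul
    intro x y
    rw [Real.dist_eq, dist_eq_norm, Real.coe_toNNReal _ hC.le]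
    exact hl x y
  exact this.continuous

theorem IsG.rf (h : IsG P) : IsG (rf P) := by
  refine ⟨fun x y => ?_, fun c hc x => ?_, ?_, ?_⟩
  · show P (-(x + y)) ≤ P (-x) + P (-y)
    rw [neg_add]
    exact h.add _ _
  · show P (-(c • x)) = c * P (-x)
    rw [← smul_neg]
    exact h.smul c hc _
  · obtain ⟨c, hc, hl⟩ := h.lower
    refine ⟨c, hc, fun x => ?_⟩
    have := hl (-x)
    rwa [norm_neg] at this
  · obtain ⟨c, hc, hl⟩ := h.upper
    refine ⟨c, hc, fun x => ?_⟩
    have := hl (-x)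
    rwa [norm_neg] at this

theorem rf_rf : rf (rf P) = P := by
  funext x
  simp [rf]

theorem rf_apply (x : E) : rf P x = P (-x) := rfl

theorem Smooth.rf (h : Smooth P) : Smooth (rf P) := by
  intro x hx
  have h1 : DifferentiableAt ℝ P (-x) := h _ (neg_ne_zero.2 hx)
  exact h1.comp x differentiableAt_id.neg

theorem fderiv_rf' (x : E) : fderiv ℝ (rf P) x = -fderiv ℝ P (-x) := by
  have h := (ContinuousLinearEquiv.neg ℝ (M := E)).comp_right_fderiv (f := P) (x := x)
  have e1 : (P ∘ (ContinuousLinearEquiv.neg ℝ (M := E))) = rf P := by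
    funext y
    simp [rf]
  have e2 : (ContinuousLinearEquiv.neg ℝ (M := E)) x = -x := by simp
  rw [e1, e2] at h
  rw [h]
  ext v
  simp

theorem fderiv_rf (x v : E) : fderiv ℝ (rf P) x v = -fderiv ℝ P (-x) v := by
  rw [fderiv_rf']
  rfl

theorem dl_rf (x v : E) : dl (rf P) x v = -dl P (-x) v := by
  unfold dl
  rw [fderiv_rf, rf_apply]
  ring

theorem dl_rf_neg (x v : E) : dl (rf P) (-x) v = -dl P x v := by
  rw [dl_rf, neg_neg]

theorem pw_rf (i : ℕ) (x : E) : pw i (rf P) x = pw i P (-x) := rfl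

theorem pw_pos (h : IsG P) (i : ℕ) {x : E} (hx : x ≠ 0) : 0 < pw i P x :=
  pow_pos (inv_pos.2 (h.pos hx)) i

theorem pw_inj {p : E → ℝ} (h : IsG P) (hp : IsG p) {i : ℕ} (hi : 1 ≤ i) {x y : E}
    (e : pw i p x = pw i P y) : p x = P y := by
  have e' : ((p x)⁻¹) ^ i = ((P y)⁻¹) ^ i := e
  have := (pow_left_inj₀ (inv_nonneg.2 (hp.nonneg x)) (inv_nonneg.2 (h.nonneg y))
    (by omega)).1 e'
  exact inv_injective this

theorem chord_iff {p : E → ℝ} (i : ℕ) :
    Chord i P p ↔ ∀ x, x ≠ 0 → pw i p x + pw i (rf p) x = pw i P x + pw i (rf P) x := Iff.rfl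

theorem IsG.convexOn (h : IsG P) : ConvexOn ℝ univ P := by
  refine ⟨convex_univ, fun x _ y _ a b ha hb _ => ?_⟩
  calc P (a • x + b • y) ≤ P (a • x) + P (b • y) := h.add _ _
    _ = a • P x + b • P y := by rw [h.smul a ha, h.smul b hb]; rfl

end

end Pool.Agent.Lib.MP_0b6b0e_gt.ZB
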