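import Pool.Agent.Lib.MP_0b6b0e_gt.ZB.Defs
import Pool.Agent.Lib.MP_0b6b0e_gt.Model

/-! The classification from the positive answer for `n ≥ 3` and the planar open set. -/

set_option autoImplicit false

open Set Filter Topology MeasureTheory

open scoped InnerProductSpace

namespace Pool.Agent.Lib.MP_0b6b0e_gt.ZB

/-- The planar open set. -/
theorem planar_open : ∃ U : Set (Body 2), IsOpen U ∧ U.Nonempty ∧ U ⊆ Bad 2 1 := by
  refine ⟨Metric.ball ⟨K0, K0_interior⟩ (1 / 100000 * (1 / 20)), Metric.isOpen_ball,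
    ⟨_, Metric.mem_ball_self (by norm_num)⟩, ?_⟩
  intro K hK
  obtain ⟨L, h0, h1, h2, h3⟩ := main_construction K.2 hK
  refine ⟨⟨L, h0⟩, h1, h2, ?_⟩
  intro S hS
  have := h3 S hS
  simpa using this

/-- The planar set is not meagre. -/
theorem planar_not_meagre : ¬ IsMeagre (Bad 2 1) := by
  intro h
  apply not_meagre
  refine h.mono ?_
  rintro K ⟨L, h0, h1, h2, h3⟩
  refine ⟨⟨L, h0⟩, h1, h2, ?_⟩
  intro S hS
  have := h3 S hS
  simpa using this

theorem classification (hpos : PosStatement) :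
    (∀ n i : ℕ, 2 ≤ n → 1 ≤ i → i ≤ n - 1 → (IsMeagre (Bad n i) ↔ 3 ≤ n)) ∧
    ∃ U : Set (Body 2), IsOpen U ∧ U.Nonempty ∧ U ⊆ Bad 2 1 := by
  refine ⟨fun n i hn hi hin => ⟨fun h => ?_, fun h => hpos n i h hi hin⟩, planar_open⟩
  by_contra hcon
  have hn2 : n = 2 := by omega
  subst hn2
  have hi1 : i = 1 := by omega
  subst hi1
  exact planar_not_meagre h

end Pool.Agent.Lib.MP_0b6b0e_gt.ZB
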