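import Pool.Agent.Lib.MP_0b6b0e_gt.ZB.Defs

/-!
Module GI: a Gaussian integral over the hyperplane orthogonal to `x`.
-/

set_option autoImplicit false

open Set Filter Topology MeasureTheory

open scoped InnerProductSpace

namespace Pool.Agent.Lib.MP_0b6b0e_gt.ZB.H94

lemma gi_norm {V : Type} [NormedAddCommGroup V] [InnerProductSpace ℝ V] [FiniteDimensional ℝ V]
    (x e : V) (hx : x ≠ 0) :
    ‖(ℝ ∙ x)ᗮ.orthogonalProjectionOnto e‖ ^ 2 = ‖e‖ ^ 2 - (⟪e, x⟫_ℝ / ‖x‖) ^ 2 := by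
  have h1 := Submodule.norm_sq_eq_add_norm_sq_projection e (ℝ ∙ x)
  have h2 : ‖(ℝ ∙ x).orthogonalProjectionOnto e‖ = ‖(⟪x, e⟫_ℝ / ‖x‖ ^ 2) • x‖ := by
    have h3 : (((ℝ ∙ x).orthogonalProjectionOnto e : (ℝ ∙ x)) : V) = (⟪x, e⟫_ℝ / ‖x‖ ^ 2) • x := by
      have := Submodule.starProjection_singleton ℝ (v := x) e
      simpa using this
    exact congrArg norm h3
  have hx' : ‖x‖ ≠ 0 := norm_ne_zero_iff.2 hx
  rw [h2, norm_smul, Real.norm_eq_abs, mul_pow, sq_abs] at h1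
  rw [real_inner_comm]
  have h4 : (⟪x, e⟫_ℝ / ‖x‖ ^ 2) ^ 2 * ‖x‖ ^ 2 = (⟪x, e⟫_ℝ / ‖x‖) ^ 2 := by
    field_simp
  rw [h4] at h1
  linarith

theorem gi : GIStatement := by
  intro V _ _ _ _ _ x e s hx
  have hin : ∀ y : (ℝ ∙ x)ᗮ,
      ⟪(ℝ ∙ x)ᗮ.orthogonalProjectionOnto e, y⟫_ℝ = ⟪e, (y : V)⟫_ℝ := fun y =>
    Submodule.inner_orthogonalProjectionOnto_eq_of_mem_right y e
  have hd : (Module.finrank ℝ V : ℝ) - 1 = (Module.finrank ℝ (ℝ ∙ x)ᗮ : ℝ) := by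
    have h1 := Submodule.finrank_add_finrank_orthogonal (ℝ ∙ x)
    rw [finrank_span_singleton hx] at h1
    rw [← h1]
    push_cast
    ring
  have hb : 0 < ((1 / 2 : ℝ) : ℂ).re := by norm_num
  have key := GaussianFourier.integral_cexp_neg_mul_sq_norm_add hb (Complex.I * s)
    ((ℝ ∙ x)ᗮ.orthogonalProjectionOnto e)
  have hint := GaussianFourier.integrable_cexp_neg_mul_sq_norm_add hb (Complex.I * s)
    ((ℝ ∙ x)ᗮ.orthogonalProjectionOnto e)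
  have hre := integral_re hint
  rw [key] at hre
  have hL : ∀ y : (ℝ ∙ x)ᗮ, RCLike.re (Complex.exp (-((1 / 2 : ℝ) : ℂ) * ↑‖y‖ ^ 2 +
      Complex.I * s * ↑⟪(ℝ ∙ x)ᗮ.orthogonalProjectionOnto e, y⟫_ℝ)) =
      Real.cos (s * ⟪e, (y : V)⟫_ℝ) * Real.exp (-‖(y : V)‖ ^ 2 / 2) := by
    intro y
    rw [hin y]
    have h1 : -((1 / 2 : ℝ) : ℂ) * ↑‖y‖ ^ 2 + Complex.I * s * ↑⟪e, (y : V)⟫_ℝ =
        ((-‖(y : V)‖ ^ 2 / 2 : ℝ) : ℂ) + ((s * ⟪e, (y : V)⟫_ℝ : ℝ) : ℂ) * Complex.I := by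
      have hn : ‖y‖ = ‖(y : V)‖ := rfl
      rw [hn]
      push_cast
      ring
    rw [h1]
    change (Complex.exp _).re = _
    rw [Complex.exp_re, Complex.add_re, Complex.add_im, Complex.ofReal_re, Complex.ofReal_im,
      Complex.re_ofReal_mul, Complex.im_ofReal_mul, Complex.I_re, Complex.I_im, mul_zero, mul_one,
      add_zero, zero_add, mul_comm]
  simp_rw [hL] at hre
  rw [hre, hd]
  have hR : (↑Real.pi / ((1 / 2 : ℝ) : ℂ)) ^ ((Module.finrank ℝ (ℝ ∙ x)ᗮ : ℂ) / 2) *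
      Complex.exp ((Complex.I * s) ^ 2 *
        ↑‖(ℝ ∙ x)ᗮ.orthogonalProjectionOnto e‖ ^ 2 / (4 * ((1 / 2 : ℝ) : ℂ))) =
      (((2 * Real.pi) ^ ((Module.finrank ℝ (ℝ ∙ x)ᗮ : ℝ) / 2) *
        Real.exp (-(s ^ 2 / 2) * (‖e‖ ^ 2 - (⟪e, x⟫_ℝ / ‖x‖) ^ 2)) : ℝ) : ℂ) := by
    have h2 : (↑Real.pi / ((1 / 2 : ℝ) : ℂ)) ^ ((Module.finrank ℝ (ℝ ∙ x)ᗮ : ℂ) / 2) =
        (((2 * Real.pi) ^ ((Module.finrank ℝ (ℝ ∙ x)ᗮ : ℝ) / 2) : ℝ) : ℂ) := by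
      rw [Complex.ofReal_cpow (by positivity)]
      push_cast
      congr 1
      ring
    have h3 : (Complex.I * s) ^ 2 *
        ↑‖(ℝ ∙ x)ᗮ.orthogonalProjectionOnto e‖ ^ 2 / (4 * ((1 / 2 : ℝ) : ℂ)) =
        ((-(s ^ 2 / 2) * (‖e‖ ^ 2 - (⟪e, x⟫_ℝ / ‖x‖) ^ 2) : ℝ) : ℂ) := by
      rw [← gi_norm x e hx]
      push_cast
      rw [mul_pow, Complex.I_sq]
      ring
    rw [h2, h3, ← Complex.ofReal_exp, ← Complex.ofReal_mul]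
  rw [hR]
  exact Complex.ofReal_re _

end Pool.Agent.Lib.MP_0b6b0e_gt.ZB.H94
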