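import Pool.Agent.Lib.MP_0b6b0e_gt.ZB.H94.LC
import Pool.Agent.Lib.MP_0b6b0e_gt.ZB.H29.LC4

/-! Module LC. -/

set_option autoImplicit false

open Set Filter Topology MeasureTheory

open scoped InnerProductSpace

namespace Pool.Agent.Lib.MP_0b6b0e_gt.ZB

theorem lc (hDV : DVStatement) (hFL : FLStatement) (hRI : RIStatement) (hND : NDStatement) :
    LCStatement := by
  intro n i hn hi P p hP hp hSP hN hR hch
  have hSp := (hDV.2.2 n i P p hi hP hp hSP hch).1
  exact H29.lc4 hDV n (by omega) P p hP hp hSP hSp hN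
    (lc3 hDV hFL hRI hND hn hi hP hp hSP hR hch)

end Pool.Agent.Lib.MP_0b6b0e_gt.ZB
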