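import Pool.Agent.Lib.MP_0b6b0e_gt.ZB.H94.Class
import Pool.Agent.Lib.MP_0b6b0e_gt.ZB.H94.LCF
import Pool.Agent.Lib.MP_0b6b0e_gt.ZB.H39.DV
import Pool.Agent.Lib.MP_0b6b0e_gt.ZB.H18.EX
import Pool.Agent.Lib.MP_0b6b0e_gt.ZB.H14.RK
import Pool.Agent.Lib.MP_0b6b0e_gt.ZB.H17.NCB
import Pool.Agent.Lib.MP_0b6b0e_gt.ZB.H19.FL
import Pool.Agent.Lib.MP_0b6b0e_gt.ZB.H93.RG
import Pool.Agent.Lib.MP_0b6b0e_gt.ZB.H94.GI
import Pool.Agent.Lib.MP_0b6b0e_gt.ZB.H32.SL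
import Pool.Agent.Lib.MP_0b6b0e_gt.ZB.H15.F1
import Pool.Agent.Lib.MP_0b6b0e_gt.ZB.H3.F2
import Pool.Agent.Lib.MP_0b6b0e_gt.ZB.H3.TP
import Pool.Agent.Lib.MP_0b6b0e_gt.ZB.H53.FK
import Pool.Agent.Lib.MP_0b6b0e_gt.ZB.H53.NCA
import Pool.Agent.Lib.MP_0b6b0e_gt.ZB.H8.SC
import Pool.Agent.Lib.MP_0b6b0e_gt.ZB.H87.GB
import Pool.Agent.Lib.MP_0b6b0e_gt.ZB.H4.ME
import Pool.Agent.Lib.MP_0b6b0e_gt.ZB.H48.SM
import Pool.Agent.Lib.MP_0b6b0e_gt.ZB.H38.GN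
import Pool.Agent.Lib.MP_0b6b0e_gt.ZB.H68.FN

/-! Assembly. -/

set_option autoImplicit false

open Set Filter Topology MeasureTheory

open scoped InnerProductSpace

namespace Pool.Agent.Lib.MP_0b6b0e_gt.ZB

theorem all_dimensions :
    (∀ n i : ℕ, 2 ≤ n → 1 ≤ i → i ≤ n - 1 → (IsMeagre (Bad n i) ↔ 3 ≤ n)) ∧
    ∃ U : Set (Body 2), IsOpen U ∧ U.Nonempty ∧ U ⊆ Bad 2 1 := by
  apply classification
  have dv : DVStatement := H39.dv
  have ex : EXStatement := H18.ex dv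
  have rk : RKStatement := H14.rk dv
  have fl' : FLStatement := H19.fl dv ex rk
  have me : MEStatement := H4.ME
  have gb : GBStatement := H87.GB
  have tp : TPStatement := H3.tp gb
  have sm : SMStatement := H48.sm tp me dv
  have nca : NCAStatement := H53.NCA
  have ncb : NCBStatement := H17.ncb me dv
  have rg : RGStatement := H93.rg dv
  have gn : GNStatement := H38.gn tp sm nca ncb rg
  have sl : SLStatement := H32.sl
  have gi : GIStatement := H94.gi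
  have f1 : F1Statement := H15.F1 sl gi
  have f2 : F2Statement := H3.f2
  have fk : FKStatement := H53.FK f1 f2
  have sc : SCStatement := ZB.sc fk gb
  exact H68.fn gn (lc dv fl' (ri dv ex rk) (nd ex rk)) sc gb

end Pool.Agent.Lib.MP_0b6b0e_gt.ZB
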