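import Pool.Agent.Lib.MP_0b6b0e_gt.ZB.H94.RI

/-! Module LC, parts (1), (2), (3): a solution of the chord equation agrees at every point with the
generic gauge function or with its reflection. -/

set_option autoImplicit false
set_option linter.unusedSectionVars false

open Set Filter Topology MeasureTheory

open scoped InnerProductSpace

namespace Pool.Agent.Lib.MP_0b6b0e_gt.ZB

theorem chord_alg {a b A B t : ℝ} (ha : 0 < a) (hb : 0 < b) (hA : 0 < A) (hB : 0 < B)
    (hs : a + b = A + B) (h1 : a * t ≤ A) (h2 : -(b * t) ≤ A) (h3 : b * t ≤ B)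
    (h4 : -(a * t) ≤ B) (h5 : A * B ≤ a * b * t ^ 2) : a = A ∨ a = B := by
  rcases lt_trichotomy t 0 with ht | ht | ht
  · right
    set s : ℝ := -t with hsd
    have hs0 : 0 < s := by linarith
    have e2 : b * s ≤ A := by rw [hsd]; linarith
    have e4 : a * s ≤ B := by rw [hsd]; linarith
    have e5 : A * B ≤ (b * s) * (a * s) := by
      have : a * b * t ^ 2 = (b * s) * (a * s) := by rw [hsd]; ring
      linarith
    have hbs : 0 < b * s := mul_pos hb hs0
    have has : 0 < a * s := mul_pos ha hs0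
    have f1 : b * s = A := by
      by_contra hne
      have hlt : b * s < A := lt_of_le_of_ne e2 hne
      have h6 : (b * s) * (a * s) < A * (a * s) := mul_lt_mul_of_pos_right hlt has
      have h7 : A * (a * s) ≤ A * B := mul_le_mul_of_nonneg_left e4 hA.le
      linarith
    have f2 : a * s = B := by
      by_contra hne
      have hlt : a * s < B := lt_of_le_of_ne e4 hne
      have : (b * s) * (a * s) < A * B := by
        rw [f1]
        exact mul_lt_mul_of_pos_left hlt hA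
      linarith
    have f3 : (a + b) * s = a + b := by linarith
    have f4 : s = 1 := by
      have : (a + b) ≠ 0 := by positivity
      field_simp at f3
      exact f3
    rw [f4] at f2
    linarith
  · exfalso
    rw [ht] at h5
    have := mul_pos hA hB
    nlinarith
  · left
    have hbt : 0 < b * t := mul_pos hb ht
    have hat : 0 < a * t := mul_pos ha ht
    have e5 : A * B ≤ (a * t) * (b * t) := by
      have : a * b * t ^ 2 = (a * t) * (b * t) := by ring
      linarith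
    have f1 : a * t = A := by
      by_contra hne
      have hlt : a * t < A := lt_of_le_of_ne h1 hne
      have h6 : (a * t) * (b * t) < A * (b * t) := mul_lt_mul_of_pos_right hlt hbt
      have h7 : A * (b * t) ≤ A * B := mul_le_mul_of_nonneg_left h3 hA.le
      linarith
    have f2 : b * t = B := by
      by_contra hne
      have hlt : b * t < B := lt_of_le_of_ne h3 hne
      have : (a * t) * (b * t) < A * B := by
        rw [f1]
        exact mul_lt_mul_of_pos_left hlt hA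
      linarith
    have f3 : (a + b) * t = a + b := by linarith
    have f4 : t = 1 := by
      have : (a + b) ≠ 0 := by positivity
      field_simp at f3
      exact f3
    rw [f4] at f1
    linarith

/-- Part (1). -/
theorem lc1 (hDV : DVStatement) (hFL : FLStatement) {n i : ℕ} (hi : 1 ≤ i)
    {P p : EuclideanSpace ℝ (Fin n) → ℝ} (hP : IsG P) (hp : IsG p) (hSP : Smooth P) (hR : Rich P)
    (hch : Chord i P p) {x : EuclideanSpace ℝ (Fin n)} (hx : x ≠ 0)
    (v : EuclideanSpace ℝ (Fin n)) :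
    pw i P x * pw i (rf P) x * (dl P x v - dl (rf P) x v) ^ 2 ≤
      pw i p x * pw i (rf p) x * (dl p x v - dl (rf p) x v) ^ 2 := by
  obtain ⟨hSp, hfo⟩ := hDV.2.2 n i P p hi hP hp hSP hch
  have h1 := hFL n i P p hi hP hp hSP hR hch x hx v
  have h2 := hfo x hx v
  have h3 : pw i p x + pw i (rf p) x = pw i P x + pw i (rf P) x := hch x hx
  have hs : 0 < pw i P x + pw i (rf P) x :=
    add_pos (pw_pos hP i hx) (pw_pos hP.rf i hx)
  generalize pw i p x = a at *
  generalize pw i (rf p) x = b at *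
  generalize pw i P x = A at *
  generalize pw i (rf P) x = B at *
  generalize dl p x v = X at *
  generalize dl (rf p) x v = Y at *
  generalize dl P x v = U at *
  generalize dl (rf P) x v = W at *
  have e1 : (a + b) * (a * X ^ 2 + b * Y ^ 2) = (a * X + b * Y) ^ 2 + a * b * (X - Y) ^ 2 := by
    ring
  have e2 : (A + B) * (A * U ^ 2 + B * W ^ 2) = (A * U + B * W) ^ 2 + A * B * (U - W) ^ 2 := by
    ring
  rw [h3, h2] at e1
  have e3 := mul_le_mul_of_nonneg_left h1 hs.le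
  linarith

/-- Part (2). -/
theorem lc2 (hDV : DVStatement) (hFL : FLStatement) (hRI : RIStatement) {n i : ℕ} (hn : 3 ≤ n)
    (hi : 1 ≤ i) {P p : EuclideanSpace ℝ (Fin n) → ℝ} (hP : IsG P) (hp : IsG p)
    (hSP : Smooth P) (hR : Rich P) (hch : Chord i P p) {x : EuclideanSpace ℝ (Fin n)}
    (hx : x ≠ 0)
    (hrx : ∀ v : EuclideanSpace ℝ (Fin n), v ≠ 0 → ⟪x, v⟫_ℝ = 0 →
      ∃ w : EuclideanSpace ℝ (Fin n), ⟪w, v⟫_ℝ ≠ 0 ∧
        (∀ k : ℝ, 0 < k → Ridge P x w k) ∧ ∀ k : ℝ, 0 < k → Ridge P (-x) w k)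
    {e : EuclideanSpace ℝ (Fin n)} (he : dl P x e ≠ dl (rf P) x e) :
    p x = P x ∨ p x = P (-x) := by
  have hker : ∀ y, y ≠ 0 → ∀ v, dl p y v = dl (rf p) y v → dl P y v = dl (rf P) y v := by
    intro y hy v hv
    have h1 := lc1 hDV hFL hi hP hp hSP hR hch hy v
    rw [hv, sub_self] at h1
    have h2 : 0 < pw i P y * pw i (rf P) y := mul_pos (pw_pos hP i hy) (pw_pos hP.rf i hy)
    have h3 : (dl P y v - dl (rf P) y v) ^ 2 ≤ 0 := by
      by_contra hc
      push Not at hc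
      have := mul_pos h2 hc
      nlinarith
    have h4 : dl P y v - dl (rf P) y v = 0 := by
      have := le_antisymm h3 (sq_nonneg _)
      exact pow_eq_zero_iff (two_ne_zero) |>.1 this
    linarith
  -- the direction
  obtain ⟨v, hv0, hxv, hv⟩ : ∃ v : EuclideanSpace ℝ (Fin n), v ≠ 0 ∧ ⟪x, v⟫_ℝ = 0 ∧
      dl P x v = dl (rf P) x v := by
    let φ : EuclideanSpace ℝ (Fin n) →ₗ[ℝ] ℝ × ℝ :=
      ((innerSL ℝ x : EuclideanSpace ℝ (Fin n) →L[ℝ] ℝ) :
        EuclideanSpace ℝ (Fin n) →ₗ[ℝ] ℝ).prod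
      (((P x)⁻¹ • fderiv ℝ P x - (rf P x)⁻¹ • fderiv ℝ (rf P) x :
        EuclideanSpace ℝ (Fin n) →L[ℝ] ℝ) : EuclideanSpace ℝ (Fin n) →ₗ[ℝ] ℝ)
    have hk : LinearMap.ker φ ≠ ⊥ := by
      apply LinearMap.ker_ne_bot_of_finrank_lt
      simp
      omega
    obtain ⟨v, hvk, hv0⟩ := (Submodule.ne_bot_iff _).1 hk
    refine ⟨v, hv0, ?_, ?_⟩
    · have := congrArg Prod.fst (LinearMap.mem_ker.1 hvk)
      simpa [φ] using this
    · have := congrArg Prod.snd (LinearMap.mem_ker.1 hvk)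
      have h2 : (P x)⁻¹ * fderiv ℝ P x v - (rf P x)⁻¹ * fderiv ℝ (rf P) x v = 0 := by
        simpa [φ] using this
      unfold dl
      linarith
  obtain ⟨w, hw, hr1, hr2⟩ := hrx v hv0 hxv
  have hd : dl P x e - dl (rf P) x e ≠ 0 := sub_ne_zero.2 he
  set t : ℝ := (dl p x e - dl (rf p) x e) / (dl P x e - dl (rf P) x e) with ht
  have hte : dl p x e - dl (rf p) x e = t * (dl P x e - dl (rf P) x e) := by
    rw [ht]; field_simp
  have g1 := hRI n i P p hi hP hp hSP hch hker x v w hx hv hw hr1 e t he hte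
  have hx' : -x ≠ 0 := neg_ne_zero.2 hx
  have hneg : ∀ (F : EuclideanSpace ℝ (Fin n) → ℝ) (u : EuclideanSpace ℝ (Fin n)),
      dl F (-x) u = -dl (rf F) x u ∧ dl (rf F) (-x) u = -dl F x u := by
    intro F u
    exact ⟨by rw [dl_rf, neg_neg], dl_rf_neg x u⟩
  have g2 := hRI n i P p hi hP hp hSP hch hker (-x) v w hx'
    (by rw [(hneg P v).1, (hneg P v).2, hv]) hw hr2 e t
    (by
      rw [(hneg P e).1, (hneg P e).2]
      intro h
      exact he (neg_injective h).symm)
    (by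
      rw [(hneg P e).1, (hneg P e).2, (hneg p e).1, (hneg p e).2]
      linarith)
  have e1 : pw i (rf p) (-x) = pw i p x := by
    unfold pw rf
    rw [neg_neg]
  rw [e1] at g2
  have h3 : pw i p x + pw i (rf p) x = pw i P x + pw i (rf P) x := hch x hx
  have h5 : pw i P x * pw i (rf P) x ≤ pw i p x * pw i (rf p) x * t ^ 2 := by
    have h6 := lc1 hDV hFL hi hP hp hSP hR hch hx e
    rw [hte] at h6
    have h7 : 0 < (dl P x e - dl (rf P) x e) ^ 2 := by positivity
    have h8 : (pw i P x * pw i (rf P) x) * (dl P x e - dl (rf P) x e) ^ 2 ≤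
        (pw i p x * pw i (rf p) x * t ^ 2) * (dl P x e - dl (rf P) x e) ^ 2 := by
      calc _ ≤ _ := h6
        _ = _ := by ring
    exact le_of_mul_le_mul_right h8 h7
  have halg := chord_alg (pw_pos hp i hx) (pw_pos hp.rf i hx) (pw_pos hP i hx)
    (pw_pos hP.rf i hx) h3 g1.1 g1.2 g2.1 g2.2 h5
  rcases halg with h | h
  · exact Or.inl (pw_inj hP hp hi h)
  · exact Or.inr (pw_inj hP hp hi h)

/-- Part (3). -/
theorem lc3 (hDV : DVStatement) (hFL : FLStatement) (hRI : RIStatement) (hND : NDStatement)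
    {n i : ℕ} (hn : 3 ≤ n) (hi : 1 ≤ i) {P p : EuclideanSpace ℝ (Fin n) → ℝ} (hP : IsG P)
    (hp : IsG p) (hSP : Smooth P) (hR : Rich P) (hch : Chord i P p)
    (x : EuclideanSpace ℝ (Fin n)) : p x = P x ∨ p x = P (-x) := by
  have hcl : IsClosed {x : EuclideanSpace ℝ (Fin n) | p x = P x ∨ p x = P (-x)} := by
    apply IsClosed.union
    · exact isClosed_eq hp.continuous hP.continuous
    · exact isClosed_eq hp.continuous (hP.continuous.comp continuous_neg)
  suffices hd : Dense {x : EuclideanSpace ℝ (Fin n) | p x = P x ∨ p x = P (-x)} by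
    have := hd.closure_eq
    rw [hcl.closure_eq] at this
    exact this.ge (mem_univ x)
  obtain ⟨X, hX, hrich⟩ := hR
  rw [dense_iff_inter_open]
  intro U hU hUne
  have : Nontrivial (EuclideanSpace ℝ (Fin n)) := by
    apply Module.nontrivial_of_finrank_pos (R := ℝ)
    simp
    omega
  -- a point of `X` in `U`, not zero
  have hU1 : (U ∩ {0}ᶜ).Nonempty :=
    (dense_compl_singleton (0 : EuclideanSpace ℝ (Fin n))).inter_open_nonempty U hU hUne
  have hU1o : IsOpen (U ∩ {0}ᶜ) := hU.inter isOpen_compl_singleton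
  obtain ⟨x1, hx1U, hx1X⟩ := hX.inter_open_nonempty _ hU1o hU1
  have hx10 : x1 ≠ 0 := hx1U.2
  obtain ⟨v, hv0, hxv⟩ : ∃ v : EuclideanSpace ℝ (Fin n), v ≠ 0 ∧ ⟪x1, v⟫_ℝ = 0 := by
    have hk : LinearMap.ker ((innerSL ℝ x1 : EuclideanSpace ℝ (Fin n) →L[ℝ] ℝ) :
        EuclideanSpace ℝ (Fin n) →ₗ[ℝ] ℝ) ≠ ⊥ := by
      apply LinearMap.ker_ne_bot_of_finrank_lt
      simp
      omega
    obtain ⟨v, hvk, hv0⟩ := (Submodule.ne_bot_iff _).1 hk
    refine ⟨v, hv0, ?_⟩
    have := LinearMap.mem_ker.1 hvk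
    simpa using this
  obtain ⟨w, hw, hr1, -⟩ := (hrich x1 hx1X hx10).2 v hv0 hxv
  obtain ⟨y, hyU, e, he⟩ := hND n P hP hSP x1 v w hx10 hw hr1 _ (hU1o.mem_nhds hx1U)
  have hy0 : y ≠ 0 := hyU.2
  have c1 := dl_continuousAt hP hy0 (hDV.2.1 n P hP hSP y hy0).2.2 e
  have c2 := dl_continuousAt hP.rf hy0 (hDV.2.1 n (rf P) hP.rf hSP.rf y hy0).2.2 e
  have hev : ∀ᶠ z in 𝓝 y, dl P z e - dl (rf P) z e ≠ 0 :=
    (c1.sub c2).eventually_ne (sub_ne_zero.2 he)
  obtain ⟨V, hVsub, hVo, hyV⟩ := mem_nhds_iff.1 (hev.and (hU1o.mem_nhds hyU))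
  obtain ⟨x2, hx2V, hx2X⟩ := hX.inter_open_nonempty V hVo ⟨y, hyV⟩
  have hx2 := hVsub hx2V
  have hx20 : x2 ≠ 0 := hx2.2.2
  refine ⟨x2, hx2.2.1, ?_⟩
  exact lc2 hDV hFL hRI hn hi hP hp hSP ⟨X, hX, hrich⟩ hch hx20 ((hrich x2 hx2X hx20).2)
    (sub_ne_zero.1 hx2.1)

end Pool.Agent.Lib.MP_0b6b0e_gt.ZB
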