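import Pool.Agent.Lib.MP_0b6b0e_gt.ZB.H94.Basic

/-! Module RI: the ridge inequality; module ND. -/

set_option autoImplicit false
set_option linter.unusedSectionVars false

open Set Filter Topology MeasureTheory

open scoped InnerProductSpace

namespace Pool.Agent.Lib.MP_0b6b0e_gt.ZB

/-- The two expansions of EX divided by `b` instead of `r`. -/
theorem exb (hEX : EXStatement) {n : ℕ} (i : ℕ) {F : EuclideanSpace ℝ (Fin n) → ℝ} (hF : IsG F)
    (hS : Smooth F) {x v : EuclideanSpace ℝ (Fin n)} (hx : x ≠ 0) {r b : ℕ → ℝ}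
    (hr0 : ∀ m, 0 < r m) (hb0 : ∀ m, 0 < b m) (hr : Tendsto r atTop (𝓝 0))
    (hrb : Tendsto (fun m => r m / b m) atTop (𝓝 0)) :
    Tendsto (fun m => (pw i F (x + (r m / 2) • v) * dl F (x + (r m / 2) • v) v -
        pw i F (x - (r m / 2) • v) * dl F (x - (r m / 2) • v) v) / b m -
        pw i F x * ((dl F (x + (r m / 2) • v) v - dl F (x - (r m / 2) • v) v) / b m))
      atTop (𝓝 0) ∧
    Tendsto (fun m => (dl F (x + (r m / 2) • v) v - dl F (x - (r m / 2) • v) v) / b m -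
        (F x)⁻¹ * ((fderiv ℝ F (x + (r m / 2) • v) v -
          fderiv ℝ F (x - (r m / 2) • v) v) / b m)) atTop (𝓝 0) := by
  have h1 := (hEX n i F hF hS x v hx r hr0 hr).2.mul hrb
  have h0 := (hEX n 0 F hF hS x v hx r hr0 hr).2.mul hrb
  rw [mul_zero] at h1 h0
  have hB : Tendsto (fun m => (dl F (x + (r m / 2) • v) v - dl F (x - (r m / 2) • v) v) / b m -
        (F x)⁻¹ * ((fderiv ℝ F (x + (r m / 2) • v) v -
          fderiv ℝ F (x - (r m / 2) • v) v) / b m)) atTop (𝓝 0) := by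
    refine h0.congr fun m => ?_
    have hr' := (hr0 m).ne'
    have hb' := (hb0 m).ne'
    simp only [pw, pow_zero, one_mul]
    field_simp
  refine ⟨?_, hB⟩
  have h2 : Tendsto (fun m => (pw i F (x + (r m / 2) • v) * dl F (x + (r m / 2) • v) v -
        pw i F (x - (r m / 2) • v) * dl F (x - (r m / 2) • v) v) / b m -
        pw i F x * (F x)⁻¹ * ((fderiv ℝ F (x + (r m / 2) • v) v -
          fderiv ℝ F (x - (r m / 2) • v) v) / b m)) atTop (𝓝 0) := by
    refine h1.congr fun m => ?_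
    have hr' := (hr0 m).ne'
    have hb' := (hb0 m).ne'
    field_simp
  have h3 := h2.sub (hB.const_mul (pw i F x))
  rw [mul_zero, sub_zero] at h3
  refine h3.congr fun m => ?_
  ring

/-- The points `x ± (r / 2) v` tend to `x`. -/
theorem tendsto_pm {n : ℕ} (x v : EuclideanSpace ℝ (Fin n)) {r : ℕ → ℝ}
    (hr : Tendsto r atTop (𝓝 0)) :
    Tendsto (fun m => x + (r m / 2) • v) atTop (𝓝 x) ∧
    Tendsto (fun m => x - (r m / 2) • v) atTop (𝓝 x) := by
  have h1 : Tendsto (fun m => (r m / 2) • v) atTop (𝓝 0) := by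
    have : Tendsto (fun m => (r m / 2) • v) atTop (𝓝 (((0 : ℝ) / 2) • v)) :=
      (hr.div_const 2).smul_const v
    simpa using this
  constructor
  · simpa using (tendsto_const_nhds (x := x)).add h1
  · simpa using (tendsto_const_nhds (x := x)).sub h1

theorem eventually_ne_zero_pm {n : ℕ} {x v : EuclideanSpace ℝ (Fin n)} (hx : x ≠ 0) {r : ℕ → ℝ}
    (hr : Tendsto r atTop (𝓝 0)) :
    ∀ᶠ m in atTop, x + (r m / 2) • v ≠ 0 ∧ x - (r m / 2) • v ≠ 0 :=
  ((tendsto_pm x v hr).1.eventually_ne hx).and ((tendsto_pm x v hr).2.eventually_ne hx)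

/-- What the ridge gives for the logarithmic derivatives of `P` and `rf P`. -/
theorem ridge_dl (hEX : EXStatement) (hRK : RKStatement) {n : ℕ}
    {P : EuclideanSpace ℝ (Fin n) → ℝ} (hP : IsG P) (hS : Smooth P)
    {x v w : EuclideanSpace ℝ (Fin n)} (hx : x ≠ 0) (hv : ‖v‖ = 1) (hw : ⟪w, v⟫_ℝ ≠ 0)
    (hr : ∀ k : ℝ, 0 < k → Ridge P x w k) :
    ∃ (r b : ℕ → ℝ) (C M : ℝ), (∀ m, 0 < r m) ∧ (∀ m, 0 < b m) ∧ Tendsto r atTop (𝓝 0) ∧
      Tendsto b atTop (𝓝 0) ∧ Tendsto (fun m => r m / b m) atTop (𝓝 0) ∧ 0 < M ∧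
      Tendsto (fun m => (dl P (x + (r m / 2) • v) v - dl P (x - (r m / 2) • v) v) / b m)
        atTop (𝓝 M) ∧
      Tendsto (fun m => (dl (rf P) (x + (r m / 2) • v) v -
        dl (rf P) (x - (r m / 2) • v) v) / b m) atTop (𝓝 0) ∧
      ∀ᶠ m in atTop,
        ‖fderiv ℝ P (x + (r m / 2) • v) - fderiv ℝ P x‖ ≤ C * b m ∧
        ‖fderiv ℝ P (x - (r m / 2) • v) - fderiv ℝ P x‖ ≤ C * b m ∧
        ‖fderiv ℝ (rf P) (x + (r m / 2) • v) - fderiv ℝ (rf P) x‖ ≤ C * b m ∧
        ‖fderiv ℝ (rf P) (x - (r m / 2) • v) - fderiv ℝ (rf P) x‖ ≤ C * b m := by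
  obtain ⟨r, b, C, hr0, hb0, hrt, hbt, hrb, h1, h2, h3⟩ :=
    hRK n P hP hS x v w hx hv (Or.inr hw) hr
  have hrb' := hrb
  have e1 := h1.mul hrb
  have e2 := h2.mul hrb
  rw [mul_zero] at e1 e2
  have g1 : Tendsto (fun m => (fderiv ℝ P (x + (r m / 2) • v) v -
      fderiv ℝ P (x - (r m / 2) • v) v) / b m) atTop (𝓝 (2 * |⟪w, v⟫_ℝ|)) := by
    have := e1.add_const (2 * |⟪w, v⟫_ℝ|)
    rw [zero_add] at this
    refine this.congr fun m => ?_
    have hr' := (hr0 m).ne'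
    have hb' := (hb0 m).ne'
    field_simp
    ring
  have g2 : Tendsto (fun m => (fderiv ℝ (rf P) (x + (r m / 2) • v) v -
      fderiv ℝ (rf P) (x - (r m / 2) • v) v) / b m) atTop (𝓝 0) := by
    refine e2.congr fun m => ?_
    have hr' := (hr0 m).ne'
    have hb' := (hb0 m).ne'
    field_simp
  have k1 := (exb hEX 0 hP hS (v := v) hx hr0 hb0 hrt hrb).2
  have k2 := (exb hEX 0 hP.rf hS.rf (v := v) hx hr0 hb0 hrt hrb).2
  refine ⟨r, b, C, (P x)⁻¹ * (2 * |⟪w, v⟫_ℝ|), hr0, hb0, hrt, hbt, hrb, ?_, ?_, ?_, h3⟩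
  · have := hP.pos hx
    have : 0 < |⟪w, v⟫_ℝ| := abs_pos.2 hw
    positivity
  · have := k1.add (g1.const_mul (P x)⁻¹)
    rw [zero_add] at this
    refine this.congr fun m => ?_
    ring
  · have := k2.add (g2.const_mul (rf P x)⁻¹)
    rw [zero_add, mul_zero] at this
    refine this.congr fun m => ?_
    ring

/-- `|dl F y v - dl F x v| ≤ C b` along a sequence where the derivative moves by `O(b)` and
`|y - x| ≤ r ≤ b`. -/
theorem dl_close {n : ℕ} {F : EuclideanSpace ℝ (Fin n) → ℝ} (hF : IsG F)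
    {x v : EuclideanSpace ℝ (Fin n)} (hx : x ≠ 0) {y : ℕ → EuclideanSpace ℝ (Fin n)}
    {b : ℕ → ℝ} {C : ℝ} (hy : Tendsto y atTop (𝓝 x))
    (hyb : ∀ᶠ m in atTop, ‖y m - x‖ ≤ b m)
    (h : ∀ᶠ m in atTop, ‖fderiv ℝ F (y m) - fderiv ℝ F x‖ ≤ C * b m) :
    ∃ C' : ℝ, ∀ᶠ m in atTop, |dl F (y m) v - dl F x v| ≤ C' * b m := by
  obtain ⟨C1, hC1, -, hl⟩ := hF.exists_lipschitz
  have hpos := hF.pos hx
  have hev : ∀ᶠ m in atTop, F x / 2 < F (y m) :=
    ((hF.continuous.tendsto x).comp hy).eventually (lt_mem_nhds (by linarith))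
  refine ⟨2 / F x * (C * ‖v‖) + 2 * C1 / (F x) ^ 2 * ‖fderiv ℝ F x v‖, ?_⟩
  filter_upwards [hev, hyb, h] with m h1 h2 h3
  have hym : 0 < F (y m) := by linarith
  have e1 : dl F (y m) v - dl F x v = (F (y m))⁻¹ * ((fderiv ℝ F (y m) - fderiv ℝ F x) v) +
      ((F (y m))⁻¹ - (F x)⁻¹) * fderiv ℝ F x v := by
    unfold dl
    rw [sub_apply]
    ring
  have hinv : (F (y m))⁻¹ ≤ 2 / F x := by
    rw [inv_eq_one_div, div_le_div_iff₀ hym hpos]
    linarith
  have e2 : |(F (y m))⁻¹ * ((fderiv ℝ F (y m) - fderiv ℝ F x) v)| ≤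
      2 / F x * (C * ‖v‖) * b m := by
    rw [abs_mul, abs_of_pos (inv_pos.2 hym)]
    have : |(fderiv ℝ F (y m) - fderiv ℝ F x) v| ≤ C * b m * ‖v‖ := by
      have h7 := (fderiv ℝ F (y m) - fderiv ℝ F x).le_opNorm v
      rw [Real.norm_eq_abs] at h7
      exact h7.trans (mul_le_mul_of_nonneg_right h3 (norm_nonneg _))
    calc (F (y m))⁻¹ * |(fderiv ℝ F (y m) - fderiv ℝ F x) v| ≤ 2 / F x * (C * b m * ‖v‖) :=
          mul_le_mul hinv this (abs_nonneg _) (by positivity)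
      _ = _ := by ring
  have e3 : |((F (y m))⁻¹ - (F x)⁻¹) * fderiv ℝ F x v| ≤
      2 * C1 / (F x) ^ 2 * ‖fderiv ℝ F x v‖ * b m := by
    rw [abs_mul, ← Real.norm_eq_abs (fderiv ℝ F x v)]
    have h4 : |(F (y m))⁻¹ - (F x)⁻¹| ≤ 2 * C1 / (F x) ^ 2 * b m := by
      have h5 : (F (y m))⁻¹ - (F x)⁻¹ = (F x - F (y m)) * ((F (y m))⁻¹ * (F x)⁻¹) := by
        field_simp
      rw [h5, abs_mul, abs_of_pos (mul_pos (inv_pos.2 hym) (inv_pos.2 hpos))]
      have h6 : |F x - F (y m)| ≤ C1 * b m := by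
        rw [abs_sub_comm]
        exact (hl _ _).trans (mul_le_mul_of_nonneg_left h2 hC1.le)
      have hb : 0 ≤ b m := (norm_nonneg _).trans h2
      calc |F x - F (y m)| * ((F (y m))⁻¹ * (F x)⁻¹) ≤ (C1 * b m) * (2 / F x * (F x)⁻¹) := by
            apply mul_le_mul h6 _ (by positivity) (by positivity)
            exact mul_le_mul_of_nonneg_right hinv (inv_pos.2 hpos).le
        _ = _ := by field_simp
    calc |(F (y m))⁻¹ - (F x)⁻¹| * ‖fderiv ℝ F x v‖ ≤ 2 * C1 / (F x) ^ 2 * b m *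
          ‖fderiv ℝ F x v‖ := mul_le_mul_of_nonneg_right h4 (norm_nonneg _)
      _ = _ := by ring
  rw [e1]
  calc _ ≤ _ := abs_add_le _ _
    _ ≤ _ := add_le_add e2 e3
    _ = _ := by ring

theorem dl_continuousAt {n : ℕ} {F : EuclideanSpace ℝ (Fin n) → ℝ} (hF : IsG F)
    {x : EuclideanSpace ℝ (Fin n)} (hx : x ≠ 0) (h : ContinuousAt (fderiv ℝ F) x)
    (e : EuclideanSpace ℝ (Fin n)) : ContinuousAt (fun y => dl F y e) x := by
  have h1 : ContinuousAt (fun y => (F y)⁻¹) x :=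
    hF.continuous.continuousAt.inv₀ (hF.pos hx).ne'
  have h2 : ContinuousAt (fun y => fderiv ℝ F y e) x := h.clm_apply continuousAt_const
  exact h1.mul h2

theorem dl_smul {n : ℕ} (F : EuclideanSpace ℝ (Fin n) → ℝ) (x v : EuclideanSpace ℝ (Fin n))
    (c : ℝ) : dl F x (c • v) = c * dl F x v := by
  unfold dl
  rw [map_smul, smul_eq_mul]
  ring

theorem dl_sub {n : ℕ} (F : EuclideanSpace ℝ (Fin n) → ℝ) (x v w : EuclideanSpace ℝ (Fin n)) :
    dl F x (v - w) = dl F x v - dl F x w := by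
  unfold dl
  rw [map_sub]
  ring

theorem ri (hDV : DVStatement) (hEX : EXStatement) (hRK : RKStatement) : RIStatement := by
  intro n i P p hi hP hp hSP hch hker x v w hx hv hw hr e t he ht
  -- reduce to a unit vector
  suffices key : ∀ v : EuclideanSpace ℝ (Fin n), ‖v‖ = 1 → dl P x v = dl (rf P) x v →
      ⟪w, v⟫_ℝ ≠ 0 → pw i p x * t ≤ pw i P x ∧ -(pw i (rf p) x * t) ≤ pw i P x by
    have hv0 : v ≠ 0 := by
      rintro rfl
      simp at hw
    have hn : 0 < ‖v‖ := norm_pos_iff.2 hv0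
    refine key (‖v‖⁻¹ • v) ?_ ?_ ?_
    · rw [norm_smul, norm_inv, norm_norm, inv_mul_cancel₀ hn.ne']
    · rw [dl_smul, dl_smul, hv]
    · rw [inner_smul_right]
      exact mul_ne_zero (inv_ne_zero hn.ne') hw
  clear hv hw v
  intro v hv1 hv hw
  obtain ⟨hSp, hfo⟩ := hDV.2.2 n i P p hi hP hp hSP hch
  obtain ⟨r, b, C, M, hr0, hb0, hrt, hbt, hrb, hM, hDP, hDQ, hcl⟩ :=
    ridge_dl hEX hRK hP hSP hx hv1 hw hr
  have hy := tendsto_pm x v hrt
  have hne := eventually_ne_zero_pm (v := v) hx hrt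
  have Ap := exb hEX i hp hSp (v := v) hx hr0 hb0 hrt hrb
  have Aq := exb hEX i hp.rf hSp.rf (v := v) hx hr0 hb0 hrt hrb
  have AP := exb hEX i hP hSP (v := v) hx hr0 hb0 hrt hrb
  have AQ := exb hEX i hP.rf hSP.rf (v := v) hx hr0 hb0 hrt hrb
  -- continuity of the derivatives
  have cP := (hDV.2.1 n P hP hSP x hx).2.2
  have cQ := (hDV.2.1 n (rf P) hP.rf hSP.rf x hx).2.2
  have cp := (hDV.2.1 n p hp hSp x hx).2.2
  have cq := (hDV.2.1 n (rf p) hp.rf hSp.rf x hx).2.2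
  set yp : ℕ → EuclideanSpace ℝ (Fin n) := fun m => x + (r m / 2) • v with hyp
  set ym : ℕ → EuclideanSpace ℝ (Fin n) := fun m => x - (r m / 2) • v with hym
  set Dp : ℕ → ℝ := fun m => (dl p (yp m) v - dl p (ym m) v) / b m with hDp
  set Dq : ℕ → ℝ := fun m => (dl (rf p) (yp m) v - dl (rf p) (ym m) v) / b m with hDq
  set DP : ℕ → ℝ := fun m => (dl P (yp m) v - dl P (ym m) v) / b m with hDP'
  set DQ : ℕ → ℝ := fun m => (dl (rf P) (yp m) v - dl (rf P) (ym m) v) / b m with hDQ'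
  -- the first order relation
  have hsum : Tendsto (fun m => pw i p x * Dp m + pw i (rf p) x * Dq m) atTop
      (𝓝 (pw i P x * M)) := by
    have h1 := ((AP.1.add AQ.1).sub (Ap.1.add Aq.1)).add
      ((hDP.const_mul (pw i P x)).add (hDQ.const_mul (pw i (rf P) x)))
    simp only [add_zero, sub_zero, mul_zero, zero_add] at h1
    refine h1.congr' ?_
    filter_upwards [hne] with m hm
    have e1 := hfo (yp m) hm.1 v
    have e2 := hfo (ym m) hm.2 v
    have hb' := (hb0 m).ne'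
    simp only [hDp, hDq]
    have e3 : (pw i P (yp m) * dl P (yp m) v - pw i P (ym m) * dl P (ym m) v) / b m +
        (pw i (rf P) (yp m) * dl (rf P) (yp m) v -
          pw i (rf P) (ym m) * dl (rf P) (ym m) v) / b m =
        (pw i p (yp m) * dl p (yp m) v - pw i p (ym m) * dl p (ym m) v) / b m +
        (pw i (rf p) (yp m) * dl (rf p) (yp m) v -
          pw i (rf p) (ym m) * dl (rf p) (ym m) v) / b m := by
      rw [← add_div, ← add_div]
      congr 1
      linarith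
    linarith
  -- the difference
  set lam : EuclideanSpace ℝ (Fin n) → ℝ := fun y =>
    (dl p y e - dl (rf p) y e) / (dl P y e - dl (rf P) y e) with hlam
  have hte : dl P x e - dl (rf P) x e ≠ 0 := sub_ne_zero.2 he
  have hlx : lam x = t := by
    simp only [hlam]
    rw [ht]
    field_simp
  have hlc : ContinuousAt lam x := by
    apply ContinuousAt.div
    · exact (dl_continuousAt hp hx cp e).sub (dl_continuousAt hp.rf hx cq e)
    · exact (dl_continuousAt hP hx cP e).sub (dl_continuousAt hP.rf hx cQ e)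
    · exact hte
  have hle : ∀ᶠ y in 𝓝 x, y ≠ 0 ∧ dl P y e - dl (rf P) y e ≠ 0 :=
    (continuousAt_id.eventually_ne hx).and
      (((dl_continuousAt hP hx cP e).sub (dl_continuousAt hP.rf hx cQ e)).eventually_ne hte)
  have hpar : ∀ y : EuclideanSpace ℝ (Fin n), y ≠ 0 → dl P y e - dl (rf P) y e ≠ 0 →
      dl p y v - dl (rf p) y v = lam y * (dl P y v - dl (rf P) y v) := by
    intro y hy0 hye
    have hpe : dl p y e - dl (rf p) y e ≠ 0 := by
      intro h
      exact hye (sub_eq_zero.2 (hker y hy0 e (sub_eq_zero.1 h)))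
    set c : ℝ := (dl p y v - dl (rf p) y v) / (dl p y e - dl (rf p) y e) with hc
    have h1 : dl p y (v - c • e) = dl (rf p) y (v - c • e) := by
      rw [dl_sub, dl_sub, dl_smul, dl_smul]
      have : c * (dl p y e - dl (rf p) y e) = dl p y v - dl (rf p) y v := by
        rw [hc]; field_simp
      linarith
    have h2 := hker y hy0 _ h1
    rw [dl_sub, dl_sub, dl_smul, dl_smul] at h2
    have h3 : dl P y v - dl (rf P) y v = c * (dl P y e - dl (rf P) y e) := by linarith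
    rw [h3]
    simp only [hlam]
    rw [hc]
    field_simp
  have hlp : Tendsto (fun m => lam (yp m) - t) atTop (𝓝 0) := by
    have := (hlc.tendsto.comp hy.1).sub_const t
    rw [hlx, sub_self] at this
    exact this
  have hlm : Tendsto (fun m => lam (ym m) - t) atTop (𝓝 0) := by
    have := (hlc.tendsto.comp hy.2).sub_const t
    rw [hlx, sub_self] at this
    exact this
  have hrb1 : ∀ᶠ m in atTop, r m ≤ b m := by
    have : ∀ᶠ m in atTop, r m / b m < 1 := hrb.eventually (gt_mem_nhds one_pos)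
    filter_upwards [this] with m hm
    rw [div_lt_one (hb0 m)] at hm
    exact hm.le
  have hyb : ∀ᶠ m in atTop, ‖yp m - x‖ ≤ b m := by
    filter_upwards [hrb1] with m hm
    simp only [hyp, add_sub_cancel_left]
    rw [norm_smul, hv1, mul_one, Real.norm_eq_abs, abs_of_pos (half_pos (hr0 m))]
    linarith [hr0 m]
  have hyb' : ∀ᶠ m in atTop, ‖ym m - x‖ ≤ b m := by
    filter_upwards [hrb1] with m hm
    have : ym m - x = -((r m / 2) • v) := by simp only [hym]; abel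
    rw [this, norm_neg, norm_smul, hv1, mul_one, Real.norm_eq_abs, abs_of_pos (half_pos (hr0 m))]
    linarith [hr0 m]
  obtain ⟨C1, hC1⟩ := dl_close hP (v := v) hx hy.1 hyb (hcl.mono fun m h => h.1)
  obtain ⟨C2, hC2⟩ := dl_close hP (v := v) hx hy.2 hyb' (hcl.mono fun m h => h.2.1)
  obtain ⟨C3, hC3⟩ := dl_close hP.rf (v := v) hx hy.1 hyb (hcl.mono fun m h => h.2.2.1)
  obtain ⟨C4, hC4⟩ := dl_close hP.rf (v := v) hx hy.2 hyb' (hcl.mono fun m h => h.2.2.2)
  have hbp : ∀ᶠ m in atTop, ‖(dl P (yp m) v - dl (rf P) (yp m) v) / b m‖ ≤ C1 + C3 := by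
    filter_upwards [hC1, hC3] with m h1 h3
    rw [Real.norm_eq_abs, abs_div, abs_of_pos (hb0 m), div_le_iff₀ (hb0 m)]
    have : dl P (yp m) v - dl (rf P) (yp m) v =
        (dl P (yp m) v - dl P x v) - (dl (rf P) (yp m) v - dl (rf P) x v) := by
      rw [hv]; ring
    rw [this]
    calc _ ≤ _ := abs_sub _ _
      _ ≤ _ := add_le_add h1 h3
      _ = _ := by ring
  have hbm : ∀ᶠ m in atTop, ‖(dl P (ym m) v - dl (rf P) (ym m) v) / b m‖ ≤ C2 + C4 := by
    filter_upwards [hC2, hC4] with m h1 h3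
    rw [Real.norm_eq_abs, abs_div, abs_of_pos (hb0 m), div_le_iff₀ (hb0 m)]
    have : dl P (ym m) v - dl (rf P) (ym m) v =
        (dl P (ym m) v - dl P x v) - (dl (rf P) (ym m) v - dl (rf P) x v) := by
      rw [hv]; ring
    rw [this]
    calc _ ≤ _ := abs_sub _ _
      _ ≤ _ := add_le_add h1 h3
      _ = _ := by ring
  have z1 : Tendsto (fun m => (lam (yp m) - t) *
      ((dl P (yp m) v - dl (rf P) (yp m) v) / b m)) atTop (𝓝 0) :=
    hlp.zero_mul_isBoundedUnder_le ⟨C1 + C3, eventually_map.2 hbp⟩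
  have z2 : Tendsto (fun m => (lam (ym m) - t) *
      ((dl P (ym m) v - dl (rf P) (ym m) v) / b m)) atTop (𝓝 0) :=
    hlm.zero_mul_isBoundedUnder_le ⟨C2 + C4, eventually_map.2 hbm⟩
  have hdiff : Tendsto (fun m => Dp m - Dq m) atTop (𝓝 (t * M)) := by
    have h1 := ((hDP.sub hDQ).const_mul t).add (z1.sub z2)
    simp only [sub_zero, add_zero] at h1
    refine h1.congr' ?_
    filter_upwards [hy.1.eventually hle, hy.2.eventually hle] with m h2 h3
    have e1 := hpar (yp m) h2.1 h2.2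
    have e2 := hpar (ym m) h3.1 h3.2
    have hb' := (hb0 m).ne'
    simp only [hDp, hDq, hDP', hDQ']
    have e3 : (dl p (yp m) v - dl p (ym m) v) / b m -
        (dl (rf p) (yp m) v - dl (rf p) (ym m) v) / b m =
        ((dl p (yp m) v - dl (rf p) (yp m) v) - (dl p (ym m) v - dl (rf p) (ym m) v)) / b m := by
      ring
    rw [e3, e1, e2]
    field_simp
    ring
  -- positivity
  have mp : ∀ᶠ m in atTop, 0 ≤ (p x)⁻¹ * ((fderiv ℝ p (yp m) v - fderiv ℝ p (ym m) v) / b m) := by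
    filter_upwards [(hEX n 0 p hp hSp x v hx r hr0 hrt).1] with m hm
    exact mul_nonneg (inv_nonneg.2 (hp.nonneg x)) (div_nonneg hm (hb0 m).le)
  have mq : ∀ᶠ m in atTop, 0 ≤ (rf p x)⁻¹ *
      ((fderiv ℝ (rf p) (yp m) v - fderiv ℝ (rf p) (ym m) v) / b m) := by
    filter_upwards [(hEX n 0 (rf p) hp.rf hSp.rf x v hx r hr0 hrt).1] with m hm
    exact mul_nonneg (inv_nonneg.2 (hp.rf.nonneg x)) (div_nonneg hm (hb0 m).le)
  have ha : 0 < pw i p x := pw_pos hp i hx
  have hb : 0 < pw i (rf p) x := pw_pos hp.rf i hx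
  constructor
  · -- (a + b) D_q -> A M - a t M
    have h1 : Tendsto (fun m => (pw i p x + pw i (rf p) x) *
        ((rf p x)⁻¹ * ((fderiv ℝ (rf p) (yp m) v - fderiv ℝ (rf p) (ym m) v) / b m)))
        atTop (𝓝 (pw i P x * M - pw i p x * (t * M))) := by
      have h2 := (hsum.sub (hdiff.const_mul (pw i p x))).sub
        (Aq.2.const_mul (pw i p x + pw i (rf p) x))
      simp only [mul_zero, sub_zero] at h2
      refine h2.congr fun m => ?_
      simp only [hDp, hDq]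
      ring
    have h3 : 0 ≤ pw i P x * M - pw i p x * (t * M) := by
      refine ge_of_tendsto h1 ?_
      filter_upwards [mq] with m hm
      positivity
    have h4 : 0 ≤ (pw i P x - pw i p x * t) * M := by linarith
    have := nonneg_of_mul_nonneg_left h4 hM
    linarith
  · have h1 : Tendsto (fun m => (pw i p x + pw i (rf p) x) *
        ((p x)⁻¹ * ((fderiv ℝ p (yp m) v - fderiv ℝ p (ym m) v) / b m)))
        atTop (𝓝 (pw i P x * M + pw i (rf p) x * (t * M))) := by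
      have h2 := (hsum.add (hdiff.const_mul (pw i (rf p) x))).sub
        (Ap.2.const_mul (pw i p x + pw i (rf p) x))
      simp only [mul_zero, sub_zero] at h2
      refine h2.congr fun m => ?_
      simp only [hDp, hDq]
      ring
    have h3 : 0 ≤ pw i P x * M + pw i (rf p) x * (t * M) := by
      refine ge_of_tendsto h1 ?_
      filter_upwards [mp] with m hm
      positivity
    have h4 : 0 ≤ (pw i P x + pw i (rf p) x * t) * M := by linarith
    have := nonneg_of_mul_nonneg_left h4 hM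
    linarith

theorem nd (hEX : EXStatement) (hRK : RKStatement) : NDStatement := by
  intro n P hP hSP x v w hx hw hr U hU
  have hv0 : v ≠ 0 := by
    rintro rfl
    simp at hw
  have hn : 0 < ‖v‖ := norm_pos_iff.2 hv0
  have hv1 : ‖‖v‖⁻¹ • v‖ = 1 := by
    rw [norm_smul, norm_inv, norm_norm, inv_mul_cancel₀ hn.ne']
  have hw1 : ⟪w, ‖v‖⁻¹ • v⟫_ℝ ≠ 0 := by
    rw [inner_smul_right]
    exact mul_ne_zero (inv_ne_zero hn.ne') hw
  generalize ‖v‖⁻¹ • v = u at hv1 hw1
  obtain ⟨r, b, C, M, hr0, hb0, hrt, hbt, hrb, hM, hDP, hDQ, hcl⟩ :=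
    ridge_dl hEX hRK hP hSP hx hv1 hw1 hr
  by_contra hcon
  push Not at hcon
  have hy := tendsto_pm x u hrt
  have h1 := hDP.sub hDQ
  have h2 : Tendsto (fun _ : ℕ => (0 : ℝ)) atTop (𝓝 (M - 0)) := by
    refine h1.congr' ?_
    filter_upwards [hy.1.eventually hU, hy.2.eventually hU] with m h3 h4
    rw [hcon _ h3 u, hcon _ h4 u]
    ring
  have h3 := tendsto_nhds_unique h2 tendsto_const_nhds
  linarith

end Pool.Agent.Lib.MP_0b6b0e_gt.ZB
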